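import Pool.Agent.K3h69.KB.Stm

/-!
# Project KB (helper69), brick NUM: weighted AM-GM for Schur complements in dimension six
-/

set_option autoImplicit false

namespace Pool.Agent.K3h40.KB

open Matrix Pool.Agent.R895 Complex Pool.Agent.K3h69.KB

theorem low (n : ℕ) (hn : 0 < n) (y : Fin n → ℝ) (hy : ∀ i, 0 ≤ y i) (c : ℝ) (hc : 0 ≤ c)
    (hp : (c / n) ^ n ≤ ∏ i, y i) : c ≤ ∑ i, y i := by
  by_contra hcon
  rw [not_le] at hcon
  have hn' : (0 : ℝ) < n := by exact_mod_cast hn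
  have h1 := amgm n hn y hy
  have h2 : ((∑ i, y i) / n) ^ n < (c / n) ^ n :=
    pow_lt_pow_left₀ (div_lt_div_of_pos_right hcon hn')
      (div_nonneg (Finset.sum_nonneg fun i _ => hy i) hn'.le) (by omega)
  exact absurd (hp.trans h1) (not_le.mpr h2)

theorem sqrt3_pow6 : (√3 / 2) ^ 6 = (27 / 64 : ℝ) := by
  have h : (√3 / 2) ^ 6 = ((√3) ^ 2) ^ 3 / (64 : ℝ) := by ring
  rw [h, Real.sq_sqrt (by norm_num)]
  norm_num

theorem det6 (hB : S_BLI) {H : Matrix (Fin 6) (Fin 6) ℂ} (hH : Pd H) {h : ℝ} (hh : 0 < h)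
    (hmin : ∀ w, IsLat w → w ≠ 0 → h ≤ q H w) : h ^ 6 / 144 ≤ H.det.re := by
  have h1 := hB 6 H (by norm_num) hH h hh hmin
  rw [sqrt3_pow6] at h1
  have h2 : ((6 + 1).factorial : ℝ) = 5040 := by norm_num [Nat.factorial]
  rw [h2] at h1
  have hpi : (945 : ℝ) ≤ Real.pi ^ 6 := by
    calc (945 : ℝ) ≤ 3.1415 ^ 6 := by norm_num
      _ ≤ Real.pi ^ 6 := pow_le_pow_left₀ (by norm_num) Real.pi_gt_d4.le 6
  have h3 : (Real.pi / 2 * h) ^ 6 = Real.pi ^ 6 * (h ^ 6 / 64) := by ring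
  rw [h3] at h1
  have h4 : 945 * (h ^ 6 / 64) ≤ Real.pi ^ 6 * (h ^ 6 / 64) :=
    mul_le_mul_of_nonneg_right hpi (by positivity)
  linarith

theorem det5 (hB : S_BLI) {H : Matrix (Fin 5) (Fin 5) ℂ} (hH : Pd H) {h : ℝ} (hh : 0 < h)
    (hmin : ∀ w, IsLat w → w ≠ 0 → h ≤ q H w) : h ^ 5 / 37 ≤ H.det.re := by
  have h1 := hB 5 H (by norm_num) hH h hh hmin
  obtain ⟨d, hd, hd0⟩ := hH.det_pos
  have hdr : H.det.re = d := by rw [hd, Complex.ofReal_re]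
  rw [hdr] at h1 ⊢
  have e1 : (√3 / 2) ^ 5 = 9 * √3 / 32 := by
    have h : (√3 / 2) ^ 5 = ((√3) ^ 2) ^ 2 * √3 / (32 : ℝ) := by ring
    rw [h, Real.sq_sqrt (by norm_num)]
    norm_num
  have h2 : ((5 + 1).factorial : ℝ) = 720 := by norm_num [Nat.factorial]
  rw [h2, e1] at h1
  have hs : √3 ≤ 1.7321 := by
    rw [Real.sqrt_le_left (by norm_num)]
    norm_num
  have hpi : (305.9 : ℝ) ≤ Real.pi ^ 5 := by
    calc (305.9 : ℝ) ≤ 3.1415 ^ 5 := by norm_num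
      _ ≤ Real.pi ^ 5 := pow_le_pow_left₀ (by norm_num) Real.pi_gt_d4.le 5
  have h3 : (Real.pi / 2 * h) ^ 5 = Real.pi ^ 5 * (h ^ 5 / 32) := by ring
  rw [h3] at h1
  have h4 : 305.9 * (h ^ 5 / 32) ≤ Real.pi ^ 5 * (h ^ 5 / 32) :=
    mul_le_mul_of_nonneg_right hpi (by positivity)
  have h5 : √3 * d ≤ 1.7321 * d := mul_le_mul_of_nonneg_right hs hd0.le
  have h6 : 720 * (9 * √3 / 32) * d = 202.5 * (√3 * d) := by ring
  rw [h6] at h1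
  have h7 : 0 < h ^ 5 := by positivity
  linarith

/-- `(2/3)^i` weights, dimension six -/
theorem V0_ge (hB : S_BLI) {H : Matrix (Fin 6) (Fin 6) ℂ} (hH : Pd H) {h : ℝ} (hh : 0 < h)
    (hmin : ∀ w, IsLat w → w ≠ 0 → h ≤ q H w) :
    17 / 18 * h ≤ ∑ i : Fin 6, (2 / 3 : ℝ) ^ (i : ℕ) * hs 6 H i := by
  refine low 6 (by norm_num) _ (fun i => mul_nonneg (by positivity) (hs_pos 6 H hH i).le) _
    (by positivity) ?_
  have h1 := det6 hB hH hh hmin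
  rw [Finset.prod_mul_distrib, prod_hs 6 H hH]
  have h2 : ∏ i : Fin 6, (2 / 3 : ℝ) ^ (i : ℕ) = (2 / 3) ^ 15 := by
    simp only [Fin.prod_univ_succ, Fin.prod_univ_zero, Fin.val_zero, Fin.val_succ]
    norm_num
  rw [h2]
  have h3 : (17 / 18 * h / ((6 : ℕ) : ℝ)) ^ 6 = (17 / 108) ^ 6 * h ^ 6 := by
    push_cast
    ring
  rw [h3]
  have h4 : 0 < h ^ 6 := by positivity
  nlinarith

theorem V1_ge (hB : S_BLI) {H : Matrix (Fin 5) (Fin 5) ℂ} (hH : Pd H) {h : ℝ} (hh : 0 < h)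
    (hmin : ∀ w, IsLat w → w ≠ 0 → h ≤ q H w) :
    h ≤ ∑ i : Fin 5, (2 / 3 : ℝ) ^ (i : ℕ) * hs 5 H i := by
  refine low 5 (by norm_num) _ (fun i => mul_nonneg (by positivity) (hs_pos 5 H hH i).le) _
    hh.le ?_
  have h1 := det5 hB hH hh hmin
  rw [Finset.prod_mul_distrib, prod_hs 5 H hH]
  have h2 : ∏ i : Fin 5, (2 / 3 : ℝ) ^ (i : ℕ) = (2 / 3) ^ 10 := by
    simp only [Fin.prod_univ_succ, Fin.prod_univ_zero, Fin.val_zero, Fin.val_succ]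
    norm_num
  rw [h2]
  have h3 : (h / ((5 : ℕ) : ℝ)) ^ 5 = (1 / 5) ^ 5 * h ^ 5 := by
    push_cast
    ring
  rw [h3]
  have h4 : 0 < h ^ 5 := by positivity
  nlinarith

/-- the weights `1, 1, 2/3, 4/9, ...` -/
theorem U0_ge (hB : S_BLI) {H : Matrix (Fin 6) (Fin 6) ℂ} (hH : Pd H) {h : ℝ} (hh : 0 < h)
    (hmin : ∀ w, IsLat w → w ≠ 0 → h ≤ q H w) :
    4 / 3 * h ≤ ∑ i : Fin 6, (2 / 3 : ℝ) ^ ((i : ℕ) - 1) * hs 6 H i := by
  refine low 6 (by norm_num) _ (fun i => mul_nonneg (by positivity) (hs_pos 6 H hH i).le) _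
    (by positivity) ?_
  have h1 := det6 hB hH hh hmin
  rw [Finset.prod_mul_distrib, prod_hs 6 H hH]
  have h2 : ∏ i : Fin 6, (2 / 3 : ℝ) ^ ((i : ℕ) - 1) = (2 / 3) ^ 10 := by
    simp only [Fin.prod_univ_succ, Fin.prod_univ_zero, Fin.val_zero, Fin.val_succ]
    norm_num
  rw [h2]
  have h3 : (4 / 3 * h / ((6 : ℕ) : ℝ)) ^ 6 = (2 / 9) ^ 6 * h ^ 6 := by
    push_cast
    ring
  rw [h3]
  have h4 : 0 < h ^ 6 := by positivity
  nlinarith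

theorem t_NUM : S_BLI → S_NUM := by
  intro hB K hK h hh hmin m hm hch
  have v0 := V0_ge hB hK hh hmin
  have u0 := U0_ge hB hK hh hmin
  have v1 := V1_ge hB hK.tl hh (min_tl hmin)
  have v2 := V_ge (by norm_num) (by norm_num) hK.tl.tl hh (min_tl (min_tl hmin))
  have v3 := V_ge (by norm_num) (by norm_num) hK.tl.tl.tl hh (min_tl (min_tl (min_tl hmin)))
  have v4 := V_ge (by norm_num) (by norm_num) hK.tl.tl.tl.tl hh
    (min_tl (min_tl (min_tl (min_tl hmin))))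
  have v5 := V_ge (by norm_num) (by norm_num) hK.tl.tl.tl.tl.tl hh
    (min_tl (min_tl (min_tl (min_tl (min_tl hmin)))))
  have c0 := hch 0 1 rfl
  have c1 := hch 1 2 rfl
  have c2 := hch 2 3 rfl
  have c3 := hch 3 4 rfl
  have c4 := hch 4 5 rfl
  have p0 := hm 0
  -- names for the Schur complements
  obtain ⟨s0, hs0⟩ : ∃ s, s = hs 6 K 0 := ⟨_, rfl⟩
  obtain ⟨s1, hs1⟩ : ∃ s, s = hs 5 (tl K) 0 := ⟨_, rfl⟩
  obtain ⟨s2, hs2⟩ : ∃ s, s = hs 4 (tl (tl K)) 0 := ⟨_, rfl⟩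
  obtain ⟨s3, hs3⟩ : ∃ s, s = hs 3 (tl (tl (tl K))) 0 := ⟨_, rfl⟩
  obtain ⟨s4, hs4⟩ : ∃ s, s = hs 2 (tl (tl (tl (tl K)))) 0 := ⟨_, rfl⟩
  obtain ⟨s5, hs5⟩ : ∃ s, s = hs 1 (tl (tl (tl (tl (tl K))))) 0 := ⟨_, rfl⟩
  have e6 : ∀ c : Fin 6 → ℝ, ∑ i, c i * hs 6 K i =
      c 0 * s0 + c 1 * s1 + c 2 * s2 + c 3 * s3 + c 4 * s4 + c 5 * s5 := by
    intro c
    rw [hs0, hs1, hs2, hs3, hs4, hs5]
    simp only [Fin.sum_univ_succ, Fin.sum_univ_zero, hs_succ, add_zero]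
    simp only [add_assoc]
    rfl
  have e5 : ∀ c : Fin 5 → ℝ, ∑ i, c i * hs 5 (tl K) i =
      c 0 * s1 + c 1 * s2 + c 2 * s3 + c 3 * s4 + c 4 * s5 := by
    intro c
    rw [hs1, hs2, hs3, hs4, hs5]
    simp only [Fin.sum_univ_succ, Fin.sum_univ_zero, hs_succ, add_zero]
    simp only [add_assoc]
    rfl
  have e4 : ∀ c : Fin 4 → ℝ, ∑ i, c i * hs 4 (tl (tl K)) i =
      c 0 * s2 + c 1 * s3 + c 2 * s4 + c 3 * s5 := by
    intro c
    rw [hs2, hs3, hs4, hs5]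
    simp only [Fin.sum_univ_succ, Fin.sum_univ_zero, hs_succ, add_zero]
    simp only [add_assoc]
    rfl
  have e3 : ∀ c : Fin 3 → ℝ, ∑ i, c i * hs 3 (tl (tl (tl K))) i =
      c 0 * s3 + c 1 * s4 + c 2 * s5 := by
    intro c
    rw [hs3, hs4, hs5]
    simp only [Fin.sum_univ_succ, Fin.sum_univ_zero, hs_succ, add_zero]
    simp only [add_assoc]
    rfl
  have e2 : ∀ c : Fin 2 → ℝ, ∑ i, c i * hs 2 (tl (tl (tl (tl K)))) i = c 0 * s4 + c 1 * s5 := by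
    intro c
    rw [hs4, hs5]
    simp only [Fin.sum_univ_succ, Fin.sum_univ_zero, hs_succ, add_zero]
    rfl
  have e1 : ∀ c : Fin 1 → ℝ, ∑ i, c i * hs 1 (tl (tl (tl (tl (tl K))))) i = c 0 * s5 := by
    intro c
    rw [hs5]
    simp only [Fin.sum_univ_succ, Fin.sum_univ_zero, add_zero]
  rw [e6] at v0 u0 ⊢
  rw [e5] at v1
  rw [e4] at v2
  rw [e3] at v3
  rw [e2] at v4
  rw [e1] at v5
  norm_num at v0 u0 v1 v2 v3 v4 v5
  have a2 := mul_nonneg (sub_nonneg.2 c1) (sub_nonneg.2 v2)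
  have a3 := mul_nonneg (sub_nonneg.2 c2) (sub_nonneg.2 v3)
  have a4 := mul_nonneg (sub_nonneg.2 c3) (sub_nonneg.2 v4)
  have a5 := mul_nonneg (sub_nonneg.2 c4) (sub_nonneg.2 v5)
  rcases le_total (m 1) (m 0) with hle | hle
  · have hmn : min ((m 0 + m 1) / 3) (m 0 / 6 + m 1 / 2) ≤ m 0 / 6 + m 1 / 2 := min_le_right _ _
    have hmn' := mul_le_mul_of_nonneg_left hmn hh.le
    have b0 := mul_nonneg (sub_nonneg.2 hle) (sub_nonneg.2 v0)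
    have b1 := mul_nonneg (sub_nonneg.2 c0) (sub_nonneg.2 u0)
    nlinarith
  · have hmn : min ((m 0 + m 1) / 3) (m 0 / 6 + m 1 / 2) ≤ (m 0 + m 1) / 3 := min_le_left _ _
    have hmn' := mul_le_mul_of_nonneg_left hmn hh.le
    have b0 := mul_nonneg p0.le (sub_nonneg.2 u0)
    have b1 := mul_nonneg (sub_nonneg.2 hle) (sub_nonneg.2 v1)
    nlinarith

end Pool.Agent.K3h40.KB
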