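import Pool.Agent.K3h69.KB.Stm

/-!
# Project KB (helper69), brick PAIR: the covering radius of reduced lattices of rank two
-/

set_option autoImplicit false

namespace Pool.Agent.K3h40.KB

open Matrix Pool.Agent.R895 Complex Pool.Agent.K3h69.KB

theorem best (z a : ℂ) (ha : IsEis a) :
    ∃ a', IsEis a' ∧ normSq (z - a') ≤ normSq (z - a) ∧ normSq (z - a') ≤ 1 / 3 := by
  obtain ⟨c, hc, hc3⟩ := exists_near z
  rcases le_total (normSq (z - a)) (normSq (z - c)) with h | h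
  · exact ⟨a, ha, le_rfl, h.trans hc3⟩
  · exact ⟨c, hc, h, hc3⟩

theorem normSq_unit {u : ℂ} (hu : u = 1 ∨ u = -1) (w : ℂ) : normSq (u * w) = normSq w := by
  rcases hu with rfl | rfl
  · rw [one_mul]
  · rw [neg_one_mul, normSq_neg]

theorem normSq_eta (a b : ℝ) : normSq ((a : ℂ) + b * (1 + om)) = a ^ 2 + a * b + b ^ 2 := by
  have h : (a : ℂ) + b * (1 + om) = ((a + b : ℝ) : ℂ) + (b : ℂ) * om := by
    push_cast
    ring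
  rw [h, normSq_ab]
  ring

theorem tri (hQ : S_QIN) (x : ℂ) (b : ℝ) (hb0 : 0 ≤ b)
    (hx : ∀ e, IsEis e → 1 - b ≤ normSq (x - e)) (t₀ p₀ : ℂ) (hp₀ : IsEis p₀) (u : ℂ)
    (hu : u = 1 ∨ u = -1) (l₁ l₂ : ℝ) (h1 : 0 ≤ l₁) (h2 : 0 ≤ l₂) (h12 : l₁ + l₂ ≤ 1) :
    ∃ v₀ v₁ : ℂ, IsEis v₀ ∧ IsEis v₁ ∧
      normSq (t₀ - v₀ - x * v₁) + b * normSq (p₀ + u * ((l₁ : ℂ) + l₂ * (1 + om)) - v₁) ≤
        1 / 6 + b / 2 := by
  have hue : IsEis u := by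
    rcases hu with rfl | rfl
    · exact IsEis.one
    · exact IsEis.one.neg
  have huu : u * u = 1 := by
    rcases hu with rfl | rfl <;> norm_num
  obtain ⟨a, a', a'', d, ha, ha', ha'', hd, hs⟩ := hQ (t₀ - x * p₀) (x * u)
  have hd1 : 1 - b ≤ normSq (x * u - d) := by
    have e : x * u - d = u * (x - d * u) := by
      linear_combination d * huu
    rw [e, normSq_unit hu]
    exact hx _ (hd.mul hue)
  obtain ⟨c₀, hc₀, g₀, k₀⟩ := best (t₀ - x * p₀) a ha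
  obtain ⟨c₁, hc₁, g₁, k₁⟩ := best (t₀ - x * p₀ - x * u) a' ha'
  obtain ⟨c₂, hc₂, g₂, k₂⟩ := best (t₀ - x * p₀ - (1 + om) * (x * u)) a'' ha''
  have hp₁ : IsEis (p₀ + u) := hp₀.add hue
  have hp₂ : IsEis (p₀ + (1 + om) * u) := hp₀.add ((IsEis.one.add IsEis.omega).mul hue)
  have r₀ : normSq (p₀ + u * ((l₁ : ℂ) + l₂ * (1 + om)) - p₀) = l₁ ^ 2 + l₁ * l₂ + l₂ ^ 2 := by
    have e : p₀ + u * ((l₁ : ℂ) + l₂ * (1 + om)) - p₀ = u * ((l₁ : ℂ) + l₂ * (1 + om)) := by ring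
    rw [e, normSq_unit hu, normSq_eta]
  have r₁ : normSq (p₀ + u * ((l₁ : ℂ) + l₂ * (1 + om)) - (p₀ + u)) =
      (l₁ - 1) ^ 2 + (l₁ - 1) * l₂ + l₂ ^ 2 := by
    have e : p₀ + u * ((l₁ : ℂ) + l₂ * (1 + om)) - (p₀ + u) =
        u * (((l₁ - 1 : ℝ) : ℂ) + l₂ * (1 + om)) := by
      push_cast
      ring
    rw [e, normSq_unit hu, normSq_eta]
  have r₂ : normSq (p₀ + u * ((l₁ : ℂ) + l₂ * (1 + om)) - (p₀ + (1 + om) * u)) =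
      l₁ ^ 2 + l₁ * (l₂ - 1) + (l₂ - 1) ^ 2 := by
    have e : p₀ + u * ((l₁ : ℂ) + l₂ * (1 + om)) - (p₀ + (1 + om) * u) =
        u * ((l₁ : ℂ) + ((l₂ - 1 : ℝ) : ℂ) * (1 + om)) := by
      push_cast
      ring
    rw [e, normSq_unit hu, normSq_eta]
  have f₀ : t₀ - c₀ - x * p₀ = t₀ - x * p₀ - c₀ := by ring
  have f₁ : t₀ - c₁ - x * (p₀ + u) = t₀ - x * p₀ - x * u - c₁ := by ring
  have f₂ : t₀ - c₂ - x * (p₀ + (1 + om) * u) = t₀ - x * p₀ - (1 + om) * (x * u) - c₂ := by ring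
  by_contra hcon
  push Not at hcon
  have q₀ := hcon c₀ p₀ hc₀ hp₀
  have q₁ := hcon c₁ (p₀ + u) hc₁ hp₁
  have q₂ := hcon c₂ (p₀ + (1 + om) * u) hc₂ hp₂
  rw [f₀, r₀] at q₀
  rw [f₁, r₁] at q₁
  rw [f₂, r₂] at q₂
  set δ₀ := normSq (t₀ - x * p₀ - c₀)
  set δ₁ := normSq (t₀ - x * p₀ - x * u - c₁)
  set δ₂ := normSq (t₀ - x * p₀ - (1 + om) * (x * u) - c₂)
  have hsum : δ₀ + δ₁ + δ₂ ≤ b := by linarith
  have w₀ := mul_lt_mul_of_pos_left q₀ (show 0 < (1 - l₁ - l₂ + 1 / 3) / 2 by linarith)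
  have w₁ := mul_lt_mul_of_pos_left q₁ (show 0 < (l₁ + 1 / 3) / 2 by linarith)
  have w₂ := mul_lt_mul_of_pos_left q₂ (show 0 < (l₂ + 1 / 3) / 2 by linarith)
  have y₀ := mul_le_mul_of_nonneg_left k₀ (show 0 ≤ 1 - l₁ - l₂ by linarith)
  have y₁ := mul_le_mul_of_nonneg_left k₁ h1
  have y₂ := mul_le_mul_of_nonneg_left k₂ h2
  have key : (1 - l₁ - l₂ + 1 / 3) / 2 * (b * (l₁ ^ 2 + l₁ * l₂ + l₂ ^ 2)) +
      (l₁ + 1 / 3) / 2 * (b * ((l₁ - 1) ^ 2 + (l₁ - 1) * l₂ + l₂ ^ 2)) +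
      (l₂ + 1 / 3) / 2 * (b * (l₁ ^ 2 + l₁ * (l₂ - 1) + (l₂ - 1) ^ 2)) = b / 3 := by
    ring
  nlinarith

theorem t_PAIR : S_QIN → S_PAIR := by
  intro hQ x b hb0 _ hx t₀ t₁
  obtain ⟨s', r, ht⟩ := exists_coord t₁
  set s : ℝ := s' - r with hs
  have ht1 : t₁ = (s : ℂ) + r * (1 + om) := by
    rw [ht, hs]
    push_cast
    ring
  have hη : IsEis (1 + om) := IsEis.one.add IsEis.omega
  have hs1 : (s : ℂ) = ((⌊s⌋ : ℤ) : ℂ) + ((Int.fract s : ℝ) : ℂ) := by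
    have := Int.floor_add_fract s
    exact_mod_cast this.symm
  have hr1 : (r : ℂ) = ((⌊r⌋ : ℤ) : ℂ) + ((Int.fract r : ℝ) : ℂ) := by
    have := Int.floor_add_fract r
    exact_mod_cast this.symm
  have he : IsEis (((⌊s⌋ : ℤ) : ℂ) + ((⌊r⌋ : ℤ) : ℂ) * (1 + om)) :=
    (IsEis.intCast _).add ((IsEis.intCast _).mul hη)
  rcases le_total (Int.fract s + Int.fract r) 1 with h | h
  · obtain ⟨v₀, v₁, h0, h1, h2⟩ := tri hQ x b hb0 hx t₀ _ he 1 (Or.inl rfl) (Int.fract s)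
      (Int.fract r) (Int.fract_nonneg s) (Int.fract_nonneg r) h
    refine ⟨v₀, v₁, h0, h1, ?_⟩
    have e : ((⌊s⌋ : ℤ) : ℂ) + ((⌊r⌋ : ℤ) : ℂ) * (1 + om) +
        1 * (((Int.fract s : ℝ) : ℂ) + ((Int.fract r : ℝ) : ℂ) * (1 + om)) = t₁ := by
      rw [ht1, hs1, hr1]
      ring
    rwa [e] at h2
  · have he' : IsEis (((⌊s⌋ : ℤ) : ℂ) + ((⌊r⌋ : ℤ) : ℂ) * (1 + om) + 1 + (1 + om)) :=
      (he.add IsEis.one).add hη
    obtain ⟨v₀, v₁, h0, h1, h2⟩ := tri hQ x b hb0 hx t₀ _ he' (-1) (Or.inr rfl) (1 - Int.fract s)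
      (1 - Int.fract r) (by linarith [Int.fract_lt_one s]) (by linarith [Int.fract_lt_one r])
      (by linarith)
    refine ⟨v₀, v₁, h0, h1, ?_⟩
    have e : ((⌊s⌋ : ℤ) : ℂ) + ((⌊r⌋ : ℤ) : ℂ) * (1 + om) + 1 + (1 + om) +
        -1 * (((1 - Int.fract s : ℝ) : ℂ) + ((1 - Int.fract r : ℝ) : ℂ) * (1 + om)) = t₁ := by
      rw [ht1, hs1, hr1]
      push_cast
      ring
    rwa [e] at h2

end Pool.Agent.K3h40.KB
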